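import Mathlib
import Pool.Agent.H.MP_5bed1d_al.Defs

namespace Pool.Agent.Results.MP_be65b5_al.Neutral

open Pool.Agent.H.MP_5bed1d_al.Defs

def SL : Set Alg := {M | M ∈ IZ ∧ (∀ x y z, M.f (M.f x y) z = M.f x (M.f y z)) ∧
  (∀ x, M.f x x = x) ∧ ∀ x y, M.f x y = M.f y x}

def BA : Set Alg :=
  {M | ∃ _ : BooleanAlgebra M.A, (∀ x y, M.f x y = xᶜ ⊔ y) ∧ M.o = ⊥}

/-- the sublattice generated by three varieties -/
inductive Gen (a y z : Set Alg) : Set Alg → Prop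
  | a : Gen a y z a
  | y : Gen a y z y
  | z : Gen a y z z
  | inf {u v} : Gen a y z u → Gen a y z v → Gen a y z (u ∩ v)
  | sup {u v} : Gen a y z u → Gen a y z v → Gen a y z (join u v)

/-- neutral elements of the lattice of varieties of implication zroupoids -/
def Neutral (a : Set Alg) : Prop :=
  ∀ y z, IsVar y → y ⊆ IZ → IsVar z → z ⊆ IZ → ∀ u v w, Gen a y z u → Gen a y z v → Gen a y z w →
    u ∩ join v w = join (u ∩ v) (u ∩ w)

def Var := {X : Set Alg // IsVar X ∧ X ⊆ IZ}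

instance : Lattice Var :=
  { (inferInstance : PartialOrder {X : Set Alg // IsVar X ∧ X ⊆ IZ}) with
    inf := fun X Y => ⟨X.1 ∩ Y.1, X.2.1.inter Y.2.1, fun _ h => X.2.2 h.1⟩
    sup := fun X Y => ⟨join X.1 Y.1, join_var _ _, join_le IZ_var X.2.2 Y.2.2⟩
    le_sup_left := fun _ _ => le_join_left _ _
    le_sup_right := fun _ _ => le_join_right _ _
    sup_le := fun _ _ Z h1 h2 => join_le Z.2.1 h1 h2
    inf_le_left := fun _ _ => Set.inter_subset_left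
    inf_le_right := fun _ _ => Set.inter_subset_right
    le_inf := fun _ _ _ h1 h2 => Set.subset_inter h1 h2 }

lemma lat {L : Type 1} [Lattice L] (a y z : L) (h1 : ∀ u v, (u ⊓ v) ⊔ a = (u ⊔ a) ⊓ (v ⊔ a))
    (h2 : ∀ u v, (u ⊔ v) ⊓ a = (u ⊓ a) ⊔ (v ⊓ a))
    (h3 : ∀ u v, u ⊓ a = v ⊓ a → u ⊔ a = v ⊔ a → u = v)
    (h4 : ∀ u v, u ≤ a → v ≤ a → u ≤ v ∨ v ≤ u) (S : Set L)
    (hS : ∀ u ∈ S, u ⊔ a = a ∨ u ⊔ a = y ⊔ a ∨ u ⊔ a = z ⊔ a ∨ u ⊔ a = (y ⊔ a) ⊓ (z ⊔ a) ∨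
      u ⊔ a = (y ⊔ a) ⊔ (z ⊔ a)) :
    ∀ u ∈ S, ∀ v ∈ S, ∀ w ∈ S, u ⊓ (v ⊔ w) = (u ⊓ v) ⊔ (u ⊓ w) := by
  intro u hu v hv w hw
  apply h3
  · rw [h2, inf_assoc, h2, inf_assoc, inf_assoc]
    rcases h4 (v ⊓ a) (w ⊓ a) inf_le_right inf_le_right with h | h
    · rw [sup_eq_right.2 h, sup_eq_right.2 (inf_le_inf_left _ h)]
    · rw [sup_eq_left.2 h, sup_eq_left.2 (inf_le_inf_left _ h)]
  · rw [h1, sup_sup_distrib_right, sup_sup_distrib_right (u ⊓ v), h1, h1]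
    have hy : a ≤ y ⊔ a := le_sup_right
    have hz : a ≤ z ⊔ a := le_sup_right
    refine le_antisymm ?_ le_inf_sup
    generalize y ⊔ a = p at *
    generalize z ⊔ a = q at *
    rcases hS u hu with h | h | h | h | h <;> rw [h] <;>
    rcases hS v hv with h | h | h | h | h <;> rw [h] <;>
    rcases hS w hw with h | h | h | h | h <;> rw [h] <;> clear * - hy hz <;> order

def K (M : Alg) : Prop := (∀ a b, M.f (M.f (M.f a b) M.o) M.o = M.f a b) ∧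
  (∀ a b, M.f (M.f (M.f a M.o) M.o) (M.f (M.f b M.o) M.o) = M.f a b) ∧ M.f (M.f M.o M.o) M.o = M.o

def D (M : Alg) (h : K M) : Alg :=
  ⟨{a // M.f (M.f a M.o) M.o = a}, fun a b => ⟨M.f a b, h.1 _ _⟩, ⟨M.o, h.2.2⟩⟩

lemma D_ev {M : Alg} (h : K M) (v) (t : Tm) : (t.ev (D M h) v).1 = t.ev M (Subtype.val ∘ v) :=
  hom_ev (M := D M h) (N := M) Subtype.val (fun _ _ => rfl) rfl v t

lemma J1 {X : Set Alg} (hX : IsVar X) {M : Alg} (hM : M ∈ join X ZM) (h : K M) : D M h ∈ X := by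
  refine hX.mem fun s t H v => Subtype.ext ?_
  have := mem_join.1 hM (.imp (.imp s .zero) .zero) (.imp (.imp t .zero) .zero)
    (fun N hN v => by simp only [Tm.ev, H N hN v])
    (fun N hN => ZM_sat hN (by simp) (by simp)) (Subtype.val ∘ v)
  simp only [Tm.ev, ← D_ev h] at this
  rw [← (s.ev (D M h) v).2, this, (t.ev (D M h) v).2]

open Tm in
lemma J2 {X : Set Alg} (hX : ∀ M ∈ X, ∀ a, M.f (M.f a M.o) M.o = a) {M : Alg}
    (hM : M ∈ join X ZM) : K M :=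
  ⟨fun a b => mem_join.1 hM (imp (imp (imp (var 0) (var 1)) zero) zero) (imp (var 0) (var 1))
      (fun N hN v => hX N hN _) (fun N hN => ZM_sat hN (by simp) (by simp))
      (fun n => if n = 0 then a else b),
    fun a b => mem_join.1 hM (imp (imp (imp (var 0) zero) zero) (imp (imp (var 1) zero) zero))
      (imp (var 0) (var 1)) (fun N hN v => by simp only [ev, hX N hN])
      (fun N hN => ZM_sat hN (by simp) (by simp)) (fun n => if n = 0 then a else b),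
    mem_join.1 hM (imp (imp zero zero) zero) zero (fun N hN v => hX N hN _)
      (fun N hN => ZM_sat hN (by simp) (by simp)) (fun _ => M.o)⟩

lemma J3 {X : Set Alg} {M : Alg} (h : K M) (hD : D M h ∈ X) : M ∈ join X ZM := by
  refine mem_join.2 fun s t h1 h2 v => ?_
  by_cases e : s = t
  · rw [e]
  have nv : ∀ s t : Tm, s ≠ t → Sat Z2 s t → ∀ n, s ≠ .var n := by
    rintro s t e h n rfl
    have := h (fun i => (decide (i = n) : Bool))
    cases t with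
    | var m =>
      have : decide (n = n) = decide (m = n) := this
      exact e (by simp at this; rw [this])
    | zero =>
      have : decide (n = n) = false := this
      simp at this
    | imp p q =>
      have : decide (n = n) = false := this
      simp at this
  let r : M.A → (D M h).A := fun a => ⟨M.f (M.f a M.o) M.o, h.1 _ _⟩
  have hr : ∀ u : Tm, r (u.ev M v) = u.ev (D M h) (r ∘ v) :=
    hom_ev r (fun a b => Subtype.ext ((h.1 a b).trans (h.2.1 a b).symm)) (Subtype.ext h.2.2) v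
  have fx : ∀ u : Tm, (∀ n, u ≠ .var n) → (r (u.ev M v)).1 = u.ev M v := by
    intro u hu
    cases u with
    | var n => exact absurd rfl (hu n)
    | zero => exact h.2.2
    | imp p q => exact h.1 _ _
  rw [← fx s (nv s t e (h2 _ Z2_mem)), ← fx t (nv t s (Ne.symm e) fun v => (h2 _ Z2_mem v).symm),
    hr, hr, h1 _ hD]

def zm : Var := ⟨ZM, ZM_var, fun _ h => h.1⟩

lemma triv {X Y : Var} (h : ¬ zm ≤ X) : X ⊓ zm ≤ Y := by
  rintro M ⟨h1, h2⟩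
  have : ∀ a : M.A, a = M.o := fun a => (inv X.2.1 X.2.2 h M h1 a).symm.trans (h2.2 _ _)
  exact Y.2.1.mem fun s t _ v => (this _).trans (this _).symm

lemma nj {X Y : Var} (h1 : ¬ zm ≤ X) (h2 : ¬ zm ≤ Y) : ¬ zm ≤ X ⊔ Y := fun h =>
  Bool.false_ne_true (mem_join.1 (h Z2_mem) (.imp (.imp (.var 0) .zero) .zero) (.var 0)
    (fun N hN v => inv X.2.1 X.2.2 h1 N hN _) (fun N hN v => inv Y.2.1 Y.2.2 h2 N hN _)
    (fun _ => true))

lemma d1 (u v : Var) : (u ⊓ v) ⊔ zm = (u ⊔ zm) ⊓ (v ⊔ zm) := by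
  refine le_antisymm (by order) ?_
  by_cases h : zm ≤ u ∧ zm ≤ v
  · rw [sup_eq_left.2 h.1, sup_eq_left.2 h.2]; exact le_sup_left
  rintro M ⟨h1, h2⟩
  have hK : K M := by
    rcases not_and_or.1 h with h | h
    · exact J2 (inv u.2.1 u.2.2 h) h1
    · exact J2 (inv v.2.1 v.2.2 h) h2
  exact J3 hK ⟨J1 u.2.1 h1 hK, J1 v.2.1 h2 hK⟩

lemma d2 (u v : Var) : (u ⊔ v) ⊓ zm = (u ⊓ zm) ⊔ (v ⊓ zm) := by
  refine le_antisymm ?_ (by order)
  by_cases h1 : zm ≤ u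
  · order
  by_cases h2 : zm ≤ v
  · order
  exact triv (nj h1 h2)

lemma d3 (u v : Var) (h1 : u ⊓ zm = v ⊓ zm) (h2 : u ⊔ zm ≤ v ⊔ zm) : u ≤ v := by
  by_cases h : zm ≤ u
  · order
  intro M hM
  have hj : M ∈ join v.1 ZM := h2 (le_join_left _ _ hM)
  have hi := inv u.2.1 u.2.2 h
  have hK := J2 hi (le_join_left _ ZM hM)
  exact v.2.1.mem fun s t H => Sat.quot (M := D M hK) Subtype.val (fun _ _ => rfl) rfl
    (fun a => ⟨⟨a, hi M hM a⟩, rfl⟩) (H _ (J1 v.2.1 hj hK))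

theorem nZM : Neutral ZM := by
  intro y z hy hy' hz hz'
  let Y : Var := ⟨y, hy, hy'⟩
  let Z : Var := ⟨z, hz, hz'⟩
  let S : Set Var := {u | u ⊔ zm = zm ∨ u ⊔ zm = Y ⊔ zm ∨ u ⊔ zm = Z ⊔ zm ∨
    u ⊔ zm = (Y ⊔ zm) ⊓ (Z ⊔ zm) ∨ u ⊔ zm = (Y ⊔ zm) ⊔ (Z ⊔ zm)}
  have hS : ∀ u, Gen ZM y z u → ∃ U ∈ S, U.1 = u := by
    have hy : zm ≤ Y ⊔ zm := le_sup_right
    have hz : zm ≤ Z ⊔ zm := le_sup_right
    intro u hu
    induction hu with
    | a => exact ⟨zm, Or.inl (sup_idem _), rfl⟩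
    | y => exact ⟨Y, Or.inr (Or.inl rfl), rfl⟩
    | z => exact ⟨Z, Or.inr (Or.inr (Or.inl rfl)), rfl⟩
    | inf _ _ h1 h2 =>
      obtain ⟨U, hU, rfl⟩ := h1
      obtain ⟨V, hV, rfl⟩ := h2
      refine ⟨U ⊓ V, ?_, rfl⟩
      simp only [S, Set.mem_setOf_eq, d1] at *
      generalize Y ⊔ zm = p at *
      generalize Z ⊔ zm = q at *
      rcases hU with h | h | h | h | h <;> rw [h] <;> rcases hV with h | h | h | h | h <;>
        rw [h] <;> clear * - hy hz <;>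
        first | (left; order) | (right; left; order) | (right; right; left; order) |
          (right; right; right; left; order) | (right; right; right; right; order)
    | sup _ _ h1 h2 =>
      obtain ⟨U, hU, rfl⟩ := h1
      obtain ⟨V, hV, rfl⟩ := h2
      refine ⟨U ⊔ V, ?_, rfl⟩
      simp only [S, Set.mem_setOf_eq] at *
      rw [sup_sup_distrib_right U]
      generalize Y ⊔ zm = p at *
      generalize Z ⊔ zm = q at *
      rcases hU with h | h | h | h | h <;> rw [h] <;> rcases hV with h | h | h | h | h <;>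
        rw [h] <;> clear * - hy hz <;>
        first | (left; order) | (right; left; order) | (right; right; left; order) |
          (right; right; right; left; order) | (right; right; right; right; order)
  intro u v w hu hv hw
  obtain ⟨U, hU, rfl⟩ := hS u hu
  obtain ⟨V, hV, rfl⟩ := hS v hv
  obtain ⟨W, hW, rfl⟩ := hS w hw
  refine congrArg Subtype.val (lat zm Y Z d1 d2
    (fun u v h1 h2 => le_antisymm (d3 u v h1 h2.le) (d3 v u h1.symm h2.ge)) ?_ S (fun _ h => h)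
    U hU V hV W hW)
  intro u v h1 h2
  by_cases h : zm ≤ u
  · exact Or.inr (h2.trans h)
  · exact Or.inl ((le_inf le_rfl h1).trans (triv h))

def z1 : Fin 4 → Fin 4 → Fin 4 := fun a b => if a = 1 then ![2, 0, 3, 3] b else 0

def Yv : Set Alg := IZ ∩ {M | ∀ x, M.f x M.o = M.f x (M.f x M.o)}
def Zv : Set Alg := IZ ∩ {M | ∀ x y z, M.f (M.f x y) z = M.o}

open Tm in
lemma Yv_var : IsVar Yv := IZ_var.inter ⟨{(imp (var 0) zero, imp (var 0) (imp (var 0) zero))}, by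
  ext M
  simp only [Set.mem_setOf_eq, Set.mem_singleton_iff, forall_eq, ev]
  exact ⟨fun h v => h _, fun h x => h fun _ => x⟩⟩

open Tm in
lemma Zv_var : IsVar Zv := IZ_var.inter ⟨{(imp (imp (var 0) (var 1)) (var 2), zero)}, by
  ext M
  simp only [Set.mem_setOf_eq, Set.mem_singleton_iff, forall_eq, ev]
  exact ⟨fun h v => h _ _ _,
    fun h x y z => h (fun n => if n = 0 then x else if n = 1 then y else z)⟩⟩

open Tm in
theorem nn (a : Set Alg) (g : Bool → Bool → Bool) (hg : (⟨Bool, g, false⟩ : Alg) ∈ a)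
    (ha : ∀ M ∈ a, ∀ x y, M.f x (M.f (M.f y M.o) M.o) = M.f x (M.f x (M.f (M.f y M.o) M.o)))
    (fB : Fin 7 → Fin 7 → Fin 7) (fA : Fin 6 → Fin 6 → Fin 6) (h : Fin 7 → Fin 4)
    (k : Fin 7 → Bool) (π : Fin 7 → Fin 6) (h1 : ∀ a b, h (fB a b) = z1 (h a) (h b)) (h2 : h 0 = 0)
    (k1 : ∀ a b, k (fB a b) = g (k a) (k b)) (k2 : k 0 = false)
    (hi : ∀ a b, h a = h b → k a = k b → a = b) (p1 : ∀ a b, π (fB a b) = fA (π a) (π b))
    (p2 : π 0 = 0) (ps : Function.Surjective π) (hA : (⟨Fin 6, fA, 0⟩ : Alg) ∈ Yv)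
    (hn : fA 1 (fA (fA 3 0) 0) ≠ fA 1 (fA 1 (fA (fA 3 0) 0))) : ¬ Neutral a := by
  intro H
  have e := H Yv Zv Yv_var (fun _ h => h.1) Zv_var (fun _ h => h.1) _ _ _ .y .z .a
  have hm : (⟨Fin 6, fA, 0⟩ : Alg) ∈ Yv ∩ join Zv a := ⟨hA, mem_join.2 fun s t a1 a2 =>
    Sat.quot (M := ⟨Fin 7, fB, 0⟩) π p1 p2 ps
      (Sat.sub (N := ⟨Fin 4, z1, 0⟩) (N' := ⟨Bool, g, false⟩) h h1 h2 k k1 k2 hi
        (a1 _ ⟨⟨by decide, by decide⟩, show ∀ x y z : Fin 4, z1 (z1 x y) z = 0 by decide⟩)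
        (a2 _ hg))⟩
  rw [e] at hm
  exact hn (mem_join.1 hm (imp (var 0) (imp (imp (var 1) zero) zero))
    (imp (var 0) (imp (var 0) (imp (imp (var 1) zero) zero)))
    (fun N hN v => by simp only [ev, hN.2.2 _ _ _]; exact hN.1.2 _)
    (fun N hN v => ha N hN.2 _ _) (fun n => if n = 0 then (1 : Fin 6) else 3))

def SLB : Fin 7 → Fin 7 → Fin 7 :=
  ![![0, 0, 0, 0, 4, 4, 4], ![2, 0, 3, 3, 5, 6, 6], ![0, 0, 0, 0, 4, 4, 4], ![0, 0, 0, 0, 4, 4, 4], ![4, 4, 4, 4, 4, 4, 4], ![4, 4, 4, 4, 4, 4, 4], ![4, 4, 4, 4, 4, 4, 4]]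

def SLA : Fin 6 → Fin 6 → Fin 6 :=
  ![![0, 0, 0, 3, 3, 3], ![2, 0, 2, 4, 5, 5], ![0, 0, 0, 3, 3, 3], ![3, 3, 3, 3, 3, 3], ![3, 3, 3, 3, 3, 3], ![3, 3, 3, 3, 3, 3]]

def BAB : Fin 7 → Fin 7 → Fin 7 :=
  ![![4, 4, 4, 4, 4, 4, 4], ![2, 4, 3, 3, 5, 6, 6], ![4, 4, 4, 4, 4, 4, 4], ![4, 4, 4, 4, 4, 4, 4], ![0, 4, 0, 0, 4, 4, 4], ![0, 4, 0, 0, 4, 4, 4], ![0, 4, 0, 0, 4, 4, 4]]

def BAA : Fin 6 → Fin 6 → Fin 6 :=
  ![![3, 3, 3, 3, 3, 3], ![2, 3, 2, 4, 5, 5], ![3, 3, 3, 3, 3, 3], ![0, 3, 0, 3, 3, 3], ![0, 3, 0, 3, 3, 3], ![0, 3, 0, 3, 3, 3]]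

theorem result : Neutral ZM ∧ ¬ Neutral SL ∧ ¬ Neutral BA := by
  refine ⟨nZM, ?_, ?_⟩
  · refine nn SL (fun x y => x || y) ⟨⟨by decide, by decide⟩, by decide, by decide, by decide⟩
      (fun M hM x y => by rw [← hM.2.1 x x, hM.2.2.1 x]) SLB SLA ![0, 1, 2, 3, 0, 2, 3]
      ![false, false, false, false, true, true, true] ![0, 1, 2, 2, 3, 4, 5] ?_ ?_ ?_ ?_ ?_ ?_ ?_ ?_
      ⟨⟨?_, ?_⟩, show ∀ x : Fin 6, SLA x 0 = SLA x (SLA x 0) from ?_⟩ ?_ <;> decide +kernel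
  · refine nn BA (fun x y => !x || y) ⟨inferInstanceAs (BooleanAlgebra Bool), by decide, rfl⟩
      (fun M ⟨_, hM, _⟩ x y => by simp only [hM, ← sup_assoc, sup_idem]) BAB BAA
      ![0, 1, 2, 3, 0, 2, 3]
      ![false, true, false, false, true, true, true] ![0, 1, 2, 2, 3, 4, 5] ?_ ?_ ?_ ?_ ?_ ?_ ?_ ?_
      ⟨⟨?_, ?_⟩, show ∀ x : Fin 6, BAA x 0 = BAA x (BAA x 0) from ?_⟩ ?_ <;> decide +kernel

end Pool.Agent.Results.MP_be65b5_al.Neutral
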